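import Mathlib

namespace Pool.Agent.Results.MP_798444_co.Twins

open Finset

/-- `f` is harmonic: its value at each vertex is the mean over the neighbours. -/
def Harmonic {V : Type} (G : SimpleGraph V) [G.LocallyFinite] (f : V → ℤ) : Prop :=
  ∀ v, (f v : ℚ) = (1 / (G.degree v : ℚ)) * ∑ u ∈ G.neighborFinset v, (f u : ℚ)

/-- The automorphism group acts transitively on vertices. -/
def VertexTransitive {V : Type} (G : SimpleGraph V) : Prop :=
  ∀ u v : V, ∃ φ : G ≃g G, φ u = v

def H : SimpleGraph (ℤ × ZMod 2) where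
  Adj p q := p ≠ q ∧ |p.1 - q.1| ≤ 1
  symm := ⟨fun p q h => ⟨h.1.symm, by rw [abs_sub_comm]; exact h.2⟩⟩
  loopless := ⟨fun p h => h.1 rfl⟩

noncomputable def ball (i : ℤ) : Finset (ℤ × ZMod 2) := (Finset.Icc (i - 1) (i + 1)) ×ˢ Finset.univ

lemma mem_ball (i : ℤ) (q : ℤ × ZMod 2) : q ∈ ball i ↔ |i - q.1| ≤ 1 := by
  simp only [ball, mem_product, mem_Icc, mem_univ, and_true, abs_le]
  omega

lemma adj_iff (p q : ℤ × ZMod 2) : H.Adj p q ↔ q ∈ (ball p.1).erase p := by
  rw [mem_erase, mem_ball]
  exact ⟨fun h => ⟨h.1.symm, h.2⟩, fun h => ⟨h.1.symm, h.2⟩⟩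

noncomputable instance : H.LocallyFinite := fun p =>
  Fintype.ofFinset ((ball p.1).erase p) (fun q => by
    rw [SimpleGraph.mem_neighborSet, adj_iff])

lemma nbr (p : ℤ × ZMod 2) : H.neighborFinset p = (ball p.1).erase p := by
  ext q
  rw [SimpleGraph.mem_neighborFinset, adj_iff]

lemma card_ball (i : ℤ) : (ball i).card = 6 := by
  simp only [ball, card_product, Int.card_Icc, card_univ, ZMod.card]
  have : (i + 1 + 1 - (i - 1)).toNat = 3 := by omega
  rw [this]

lemma self_mem (p : ℤ × ZMod 2) : p ∈ ball p.1 := by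
  rw [mem_ball]; simp

def shift (a : ℤ × ZMod 2) : H ≃g H where
  toEquiv := Equiv.addRight a
  map_rel_iff' := by
    intro p q
    simp only [H, Equiv.coe_addRight, ne_eq, add_left_inj, Prod.fst_add]
    rw [add_sub_add_right_eq_sub]

lemma reach (p : ℤ × ZMod 2) : H.Reachable (0, 0) p := by
  obtain ⟨i, b⟩ := p
  have step : ∀ (j k : ℤ) (a c : ZMod 2), |j - k| ≤ 1 → H.Reachable (j, a) (k, c) := by
    intro j k a c h
    by_cases e : ((j, a) : ℤ × ZMod 2) = (k, c)
    · rw [e]
    · exact SimpleGraph.Adj.reachable ⟨e, h⟩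
  induction i using Int.induction_on generalizing b with
  | zero => exact step 0 0 0 b (by simp)
  | succ n ih => exact (ih 0).trans (step _ _ _ _ (by simp))
  | pred n ih => exact (ih 0).trans (step _ _ _ _ (by simp))

theorem result : ∃ (V : Type) (G : SimpleGraph V) (_ : G.LocallyFinite),
    Infinite V ∧ G.Connected ∧ VertexTransitive G ∧
      ∀ f : V → ℤ, Harmonic G f → ¬ Function.Injective f := by
  refine ⟨ℤ × ZMod 2, H, inferInstance, inferInstance, ?_, ?_, ?_⟩
  · exact ⟨fun p q => (reach p).symm.trans (reach q)⟩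
  · intro u v
    refine ⟨shift (v - u), ?_⟩
    show u + (v - u) = v
    abel
  · intro f hf hinj
    have key : ∀ p : ℤ × ZMod 2, (6 : ℚ) * f p = ∑ u ∈ ball p.1, (f u : ℚ) := by
      intro p
      have h := hf p
      have hd : H.degree p = 5 := by
        rw [← SimpleGraph.card_neighborFinset_eq_degree, nbr, card_erase_of_mem (self_mem p),
          card_ball]
      rw [hd, nbr] at h
      rw [← add_sum_erase _ _ (self_mem p)]
      push_cast at h
      linarith
    have h0 := key (0, 0)
    have h1 := key (0, 1)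
    have : (f (0, 0) : ℚ) = f (0, 1) := by
      simp only at h0 h1
      linarith
    have h2 : f (0, 0) = f (0, 1) := by exact_mod_cast this
    have h3 := hinj h2
    simp at h3

end Pool.Agent.Results.MP_798444_co.Twins
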